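import Mathlib
import Pool.Agent.H26.IdealLim

set_option autoImplicit false

namespace Pool.Agent.Results.MP_c9b87f_lc.Dichotomy

open Set Filter Topology Pool.Agent.H26.IdealLim

/-- `I` is a `Π⁰₄ = G_δσδ` subset of the Cantor space -/
def IsPi04 (I : Set (Set ℕ)) : Prop :=
  ∃ U : ℕ → ℕ → ℕ → Set (ℕ → Bool), (∀ n m j, IsOpen (U n m j)) ∧
    chi '' I = ⋂ n, ⋃ m, ⋂ j, U n m j

/-- the set of `I`-limit points of `x` -/
def Lim {X : Type} [TopologicalSpace X] (I : Set (Set ℕ)) (x : ℕ → X) : Set X :=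
  {η | ∃ S, S ∉ I ∧ Tendsto x (atTop ⊓ 𝓟 S) (𝓝 η)}

/-- the family `𝓛_X(I)` -/
def Fam (X : Type) [TopologicalSpace X] (I : Set (Set ℕ)) : Set (Set X) := range (Lim I) ∪ {∅}

def IsFsigma {X : Type} [TopologicalSpace X] (Y : Set X) : Prop :=
  ∃ F : ℕ → Set X, (∀ n, IsClosed (F n)) ∧ Y = ⋃ n, F n

section
variable {X : Type} [MetricSpace X] [SecondCountableTopology X] {I : Set (Set ℕ)}
  {U : ℕ → ℕ → ℕ → Set (ℕ → Bool)}

def Ab (x : ℕ → X) (η : X) (k : ℕ) : Set ℕ := {i | k ≤ i ∧ dist (x i) η < (1 / 2) ^ k}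

omit [SecondCountableTopology X] in
theorem Ab_anti (x : ℕ → X) (η : X) : Antitone (Ab x η) := fun _ _ h _ hi =>
  ⟨h.trans hi.1, hi.2.trans_le (pow_le_pow_of_le_one (by norm_num) (by norm_num) h)⟩

omit [SecondCountableTopology X] in
theorem Ab_sub (x : ℕ → X) {η ζ : X} {k l : ℕ} (h : dist η ζ < (1 / 2) ^ (k + 1)) (hl : k < l) :
    Ab x η l ⊆ Ab x ζ k := fun i hi => by
  have h1 := Ab_anti x η hl hi
  refine ⟨(Nat.le_succ k).trans h1.1, ?_⟩
  have := dist_triangle (x i) η ζ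
  have := h1.2
  rw [pow_succ] at *
  linarith

omit [SecondCountableTopology X] in
theorem tend_iff (x : ℕ → X) (η : X) (S : Set ℕ) :
    Tendsto x (atTop ⊓ 𝓟 S) (𝓝 η) ↔ ∀ k, (S \ Ab x η k).Finite := by
  simp only [Metric.tendsto_nhds, eventually_inf_principal, ← Nat.cofinite_eq_atTop,
    eventually_cofinite]
  refine ⟨fun h k => ((h ((1 / 2) ^ k) (by positivity)).union (finite_Iio k)).subset
    fun i hi => ?_, fun h ε hε => ?_⟩
  · by_cases c : i < k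
    · exact Or.inr c
    · exact Or.inl fun g => hi.2 ⟨not_lt.mp c, g hi.1⟩
  · obtain ⟨k, hk⟩ := exists_pow_lt_of_lt_one hε (by norm_num : (1 / 2 : ℝ) < 1)
    refine (h k).subset fun i hi => ?_
    simp only [mem_setOf_eq, Classical.not_imp] at hi
    exact ⟨hi.1, fun g => hi.2 (g.2.trans hk)⟩

theorem fin_union (hI : IsIdeal I) (C : ℕ → Set ℕ) (h : ∀ i, C i ∈ I) (k : ℕ) :
    (⋃ i < k, C i) ∈ I := by
  induction k with
  | zero => simpa using hI.fin finite_empty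
  | succ k ih => rw [biUnion_lt_succ]; exact hI.union ih (h k)

variable (hI : IsIdeal I) (hU : ∀ n m j, IsOpen (U n m j))
  (h4 : ∀ S, S ∈ I ↔ ∀ n, ∃ m, ∀ j, chi S ∈ U n m j)
include hI hU h4

omit [SecondCountableTopology X] in
theorem col {x : ℕ → X} {d : X} (hd : d ∉ Lim I x) (D : Set ℕ) (h : ∀ k, D \ Ab x d k ∈ I) :
    D ∈ I := lemP hI hU h4 (Ab_anti x d) (fun _ _ h => h.1) D h fun S hS =>
  by_contra fun c => hd ⟨S, c, (tend_iff x d S).mpr hS⟩

omit [SecondCountableTopology X] in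
theorem tree (x : ℕ → X) (Z : Set X) (n k : ℕ) (B : Set ℕ) (hB : B.Finite) (η0 : X) (h0 : η0 ∈ Z)
    (h1 : ∀ η ∈ Z, ∀ r > 0, ¬ closure (Z ∩ Metric.ball η r) ⊆ Lim I x)
    (h2 : ∀ η ∈ Z, Theta (Ab x η) (U n) B k ∧ Ab x η0 (k + 1) ⊆ Ab x η k) : False := by
  classical
  have ch : ∀ p : {p : X × Finset ℕ × ℕ // p.1 ∈ Z ∧ ↑p.2.1 ⊆ Ab x η0 (k + 1) ∧
      Ab x p.1 p.2.2 ⊆ Ab x η0 (k + 1) ∧ k ≤ p.2.2}, ∃ d ∉ Lim I x, ∀ m i : ℕ,
      ∃ q : {p : X × Finset ℕ × ℕ // p.1 ∈ Z ∧ ↑p.2.1 ⊆ Ab x η0 (k + 1) ∧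
        Ab x p.1 p.2.2 ⊆ Ab x η0 (k + 1) ∧ k ≤ p.2.2}, ∃ E : Set ℕ,
      (p.1.2.1 : Set ℕ) ⊆ q.1.2.1 ∧ (q.1.2.1 : Set ℕ) ⊆ ↑p.1.2.1 ∪ E ∧ Ab x q.1.1 q.1.2.2 ⊆ E ∧
      E ⊆ Ab x p.1.1 p.1.2.2 ∩ Ioi m ∧ E ⊆ Ab x d i ∧
      ∃ j, ∀ R ⊆ Ab x q.1.1 q.1.2.2, chi (B ∪ q.1.2.1 ∪ R) ∉ U n m j := by
    rintro ⟨⟨η, s, κ⟩, a1, a2, a3, a4⟩
    obtain ⟨d, d1, d2⟩ := not_subset.mp (h1 η a1 ((1 / 2) ^ (κ + 1)) (by positivity))
    refine ⟨d, d2, fun m i => ?_⟩
    obtain ⟨ζ, ⟨z1, z2⟩, z3⟩ := Metric.mem_closure_iff.mp d1 ((1 / 2) ^ (i + 1)) (by positivity)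
    dsimp only at a1 a2 a3 a4
    obtain ⟨j, t, k2, b1, b2, b3⟩ := (h2 ζ z1).1 m s (κ + m + i + 1) (a2.trans (h2 ζ z1).2)
      (by omega)
    have e1 : Ab x ζ (κ + m + i + 1) ⊆ Ab x η κ := Ab_sub x z2 (by omega)
    refine ⟨⟨(ζ, s ∪ t, k2), z1, ?_, ((Ab_anti x ζ b2).trans e1).trans a3, by dsimp only; omega⟩,
      Ab x ζ (κ + m + i + 1), by simp, ?_, Ab_anti x ζ b2, fun a ha => ⟨e1 ha, ?_⟩,
      Ab_sub x (dist_comm d ζ ▸ z3) (by omega), j, fun R hR => ?_⟩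
    · rw [Finset.coe_union]; exact union_subset a2 ((b1.trans e1).trans a3)
    · rw [Finset.coe_union]; exact union_subset_union_right _ b1
    · have := ha.1; simp; omega
    · simpa only [Finset.coe_union, union_assoc] using b3 R hR
  choose d hd q E c1 c2 c3 c4 c5 c6 using ch
  let st : List ℕ → _ := fun τ => List.rec (motive := fun _ => _)
    ⟨(η0, ∅, k + 1), h0, by simp, le_rfl, Nat.le_succ k⟩ (fun i τ p => q p τ.length i) τ
  refine diag hI hU h4 n B hB (fun τ => (st τ).1.2.1) (fun τ => Ab x (st τ).1.1 (st τ).1.2.2)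
    (fun τ => E (st τ.tail) τ.tail.length τ.headI) rfl (fun i τ => c1 _ _ _) (fun i τ => c2 _ _ _)
    (fun i τ => c3 _ _ _) (fun i τ => c4 _ _ _) (fun i τ => c6 _ _ _) fun τ C g1 g2 => ?_
  refine col hI hU h4 (hd (st τ)) _ fun l => hI.sub ?_ (fin_union hI C g2 l)
  rintro a ⟨ha, hn⟩
  obtain ⟨i, hi⟩ := mem_iUnion.mp ha
  exact mem_biUnion (lt_of_not_ge fun c => hn (Ab_anti x _ c (c5 _ _ _ (g1 i hi)))) hi

theorem fsigma (x : ℕ → X) : IsFsigma (Lim I x) := by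
  let Cov : Set X → Prop := fun Y =>
    ∃ F : ℕ → Set X, (∀ n, IsClosed (F n)) ∧ Y ⊆ ⋃ n, F n ∧ (⋃ n, F n) ⊆ Lim I x
  have cu : ∀ {ι : Type} [Countable ι] (Y : ι → Set X) (W : Set X), (∀ i, Cov (Y i)) →
      W ⊆ ⋃ i, Y i → Cov W := by
    intro ι _ Y W h hW
    choose F f1 f2 f3 using h
    obtain ⟨e, he⟩ := exists_surjective_nat (Option (ι × ℕ))
    refine ⟨fun n => (e n).elim ∅ fun p => F p.1 p.2, fun n => ?_, fun a ha => ?_,
      iUnion_subset fun n => ?_⟩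
    · dsimp only
      cases e n <;> simp [f1]
    · obtain ⟨i, hi⟩ := mem_iUnion.mp (hW ha)
      obtain ⟨j, hj⟩ := mem_iUnion.mp (f2 i hi)
      obtain ⟨n, hn⟩ := he (some (i, j))
      exact mem_iUnion.mpr ⟨n, by rw [hn]; exact hj⟩
    · cases e n with
      | none => exact empty_subset _
      | some p => exact (subset_iUnion (F p.1) p.2).trans (f3 p.1)
  suffices Cov (Lim I x) by
    obtain ⟨F, f1, f2, f3⟩ := this
    exact ⟨F, f1, f2.antisymm f3⟩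
  refine cu (fun p : ℕ × Finset ℕ × ℕ => {η | Theta (Ab x η) (U p.1) p.2.1 p.2.2} ∩ Lim I x) _
    ?_ fun η hη => ?_
  · rintro ⟨n, B, k⟩
    dsimp only
    generalize hL : {η | Theta (Ab x η) (U n) B k} ∩ Lim I x = L
    let Z := {η ∈ L | ∀ r > 0, ¬ Cov (L ∩ Metric.ball η r)}
    have hW : Cov (L \ Z) := by
      haveI := (TopologicalSpace.countable_countableBasis X).mono
        (sep_subset _ fun b => Cov (L ∩ b)) |>.to_subtype
      refine cu (fun b : {b ∈ TopologicalSpace.countableBasis X | Cov (L ∩ b)} => L ∩ b.1) _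
        (fun b => b.2.2) fun η hη => ?_
      obtain ⟨r, hr, F, f1, f2, f3⟩ : ∃ r > 0, Cov (L ∩ Metric.ball η r) := by
        by_contra c
        exact hη.2 ⟨hη.1, fun r hr g => c ⟨r, hr, g⟩⟩
      obtain ⟨b, b1, b2, b3⟩ := (TopologicalSpace.isBasis_countableBasis X).mem_nhds_iff.mp
        (Metric.ball_mem_nhds η hr)
      exact mem_iUnion.mpr ⟨⟨b, b1, F, f1, (inter_subset_inter_right _ b3).trans f2, f3⟩, hη.1, b2⟩
    by_contra hc
    obtain ⟨η0, h0⟩ : Z.Nonempty := by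
      by_contra c
      rw [not_nonempty_iff_eq_empty.mp c, diff_empty] at hW
      exact hc hW
    refine tree hI hU h4 x (Z ∩ Metric.ball η0 ((1 / 2) ^ (k + 1))) n k B B.finite_toSet η0
      ⟨h0, Metric.mem_ball_self (by positivity)⟩ (fun η hη r hr c => ?_) fun η hη =>
      ⟨(hL ▸ hη.1.1 :).1, Ab_sub x (Metric.mem_ball'.mp hη.2) (Nat.lt_succ_self k)⟩
    obtain ⟨r', p1, p2⟩ := Metric.isOpen_iff.mp (Metric.isOpen_ball.inter Metric.isOpen_ball) η
      ⟨hη.2, Metric.mem_ball_self hr⟩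
    refine hη.1.2 r' p1 (cu (fun b : Bool => if b then L \ Z else
      closure (Z ∩ Metric.ball η0 ((1 / 2) ^ (k + 1)) ∩ Metric.ball η r)) _ ?_ fun a ha => ?_)
    · rintro (_ | _)
      · exact ⟨fun _ => _, fun _ => isClosed_closure, subset_iUnion (fun _ : ℕ => _) 0,
          iUnion_subset fun _ => c⟩
      · exact hW
    · by_cases g : a ∈ Z
      · exact mem_iUnion.mpr ⟨false, subset_closure ⟨⟨g, (p2 ha.2).1⟩, (p2 ha.2).2⟩⟩
      · exact mem_iUnion.mpr ⟨true, ha.1, g⟩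
  · obtain ⟨S, s1, s2⟩ := id hη
    obtain ⟨n, B, k, hB, hT⟩ := lemQ hI hU h4 (Ab_anti x η) (fun _ _ h => h.1) S s1
    have fB : B.Finite := (hB.union ((tend_iff x η S).mp s2 k)).subset (subset_diff_union _ _)
    exact mem_iUnion.mpr ⟨(n, fB.toFinset, k), by simpa using hT, hη⟩

theorem realize (D : Set ℕ) (hD : D ∉ I) (F : Set X) (hF : F.Nonempty) : ∃ y : ℕ → X,
    (∀ n, y n ∈ F) ∧ ∀ η ∈ F, ∃ S ⊆ D, S ∉ I ∧ Tendsto y (atTop ⊓ 𝓟 S) (𝓝 η) := by
  obtain ⟨g, g1, g2⟩ := lemT hI hU h4 D hD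
  haveI := hF.to_subtype
  obtain ⟨q, hq⟩ := TopologicalSpace.exists_dense_seq F
  refine ⟨fun n => q (g n).unpair.1, fun n => (q _).2, fun η hη => ?_⟩
  choose r hr using fun l : ℕ => Metric.denseRange_iff.mp hq ⟨η, hη⟩ ((1 / 2) ^ l) (by positivity)
  refine ⟨_, fun i hi => hi.1, g2 (range fun l => Nat.pair (r l) l) (infinite_range_of_injective
    fun a b h => (Nat.pair_eq_pair.mp h).2), (tend_iff _ _ _).mpr fun k => ?_⟩
  have := g1.eventually_gt_atTop ((Finset.range k).sup fun l => Nat.pair (r l) l)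
  rw [← Nat.cofinite_eq_atTop, eventually_cofinite] at this
  refine (this.union (finite_Iio k)).subset ?_
  rintro i ⟨⟨-, l, hl⟩, hi⟩
  by_contra c
  simp only [mem_union, mem_setOf_eq, mem_Iio, not_or, not_not, not_lt] at c
  refine hi ⟨c.2, ?_⟩
  have hk : k ≤ l := le_of_not_gt fun h => by
    have : Nat.pair (r l) l ≤ _ :=
      Finset.le_sup (f := fun l => Nat.pair (r l) l) (Finset.mem_range.mpr h)
    dsimp only at hl
    omega
  simp only [← hl, Nat.unpair_pair]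
  exact (dist_comm _ _).trans_lt ((hr l).trans_le
    (pow_le_pow_of_le_one (by norm_num) (by norm_num) hk))

omit [SecondCountableTopology X] hU h4 in
theorem mem_cl {F : Set X} (hF : IsClosed F) {y : ℕ → X} {S T : Set ℕ} {η : X} (hT : T.Infinite)
    (h1 : T ⊆ S) (h2 : ∀ n ∈ T, y n ∈ F) (h : Tendsto y (atTop ⊓ 𝓟 S) (𝓝 η)) : η ∈ F := by
  refine hF.mem_of_frequently_of_tendsto ?_ h
  rw [frequently_inf_principal]
  exact (Nat.frequently_atTop_iff_infinite.mpr hT).mono fun n hn => ⟨h1 hn, h2 n hn⟩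

theorem main : Fam X I = {Y | IsClosed Y} ∨ Fam X I = {Y | IsFsigma Y} := by
  classical
  by_cases c : ∀ x : ℕ → X, IsClosed (Lim I x)
  · refine Or.inl (Subset.antisymm ?_ fun F hF => ?_)
    · rintro _ (⟨x, rfl⟩ | rfl)
      exacts [c x, isClosed_empty]
    · rcases F.eq_empty_or_nonempty with rfl | h
      · exact Or.inr rfl
      obtain ⟨y, y1, y2⟩ := realize hI hU h4 univ hI.proper F h
      refine Or.inl ⟨y, Subset.antisymm ?_ fun η hη => ?_⟩
      · rintro η ⟨S, s1, s2⟩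
        exact mem_cl hI hF (fun f => s1 (hI.fin f)) le_rfl (fun n _ => y1 n) s2
      · obtain ⟨S, -, h⟩ := y2 η hη
        exact ⟨S, h⟩
  refine Or.inr (Subset.antisymm ?_ ?_)
  · rintro _ (⟨x, rfl⟩ | rfl)
    exacts [fsigma hI hU h4 x, ⟨fun _ => ∅, fun _ => isClosed_empty, by simp⟩]
  rintro _ ⟨F, hF, rfl⟩
  rcases (⋃ n, F n).eq_empty_or_nonempty with h | ⟨a, ha⟩
  · exact Or.inr h
  push Not at c
  obtain ⟨x, hx⟩ := c
  obtain ⟨d, d1, d2⟩ := not_subset.mp (mt closure_subset_iff_isClosed.mp hx)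
  have pos : ∀ k, ∃ l, k < l ∧ Ab x d k \ Ab x d l ∉ I := by
    intro k
    obtain ⟨ζ, ⟨S, s1, s2⟩, z⟩ := Metric.mem_closure_iff.mp d1 ((1 / 2) ^ (k + 1)) (by positivity)
    by_contra g
    push Not at g
    refine s1 (hI.sub (subset_diff_union S _) (hI.union (hI.fin ((tend_iff x ζ S).mp s2 (k + 1)))
      (hI.sub (Ab_sub x (dist_comm d ζ ▸ z) (Nat.lt_succ_self k))
        (col hI hU h4 d2 _ fun l => hI.sub (diff_subset_diff_right
          (Ab_anti x d (Nat.le_add_left l (k + 1)))) (g _ (by omega))))))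
  choose nx n1 n2 using pos
  let K : ℕ → ℕ := fun l => nx^[l] 0
  have k1 : ∀ l, K (l + 1) = nx (K l) := fun l => Function.iterate_succ_apply' _ _ _
  have k2 : StrictMono K := strictMono_nat_of_lt_succ fun l => k1 l ▸ n1 _
  have ex : ∀ n, ∃ i, n ∉ Ab x d (K (i + 1)) := fun n => ⟨n, fun h => by
    have := h.1
    have := k2.id_le (n + 1)
    simp at this; omega⟩
  choose y y1 y2 using fun i => realize hI hU h4 _ (k1 i ▸ n2 (K i)) (insert a (F i))
    (insert_nonempty _ _)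
  refine Or.inl ⟨fun n => y (Nat.find (ex n)) n, Subset.antisymm ?_ fun η hη => ?_⟩
  · rintro η ⟨S, s1, s2⟩
    obtain ⟨i, hi⟩ : ∃ i, {n ∈ S | Nat.find (ex n) = i}.Infinite := by
      by_contra g
      simp only [not_exists, not_infinite] at g
      refine d2 ⟨S, s1, (tend_iff x d S).mpr fun k => ((finite_Iic k).biUnion fun i _ =>
        g i).subset fun n hn => mem_biUnion (Nat.find_le fun h => hn.2 (Ab_anti x d
          ((Nat.le_succ k).trans (k2.id_le (k + 1))) h)) ⟨hn.1, rfl⟩⟩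
    have := mem_cl hI (isClosed_singleton.union (hF i)) hi (sep_subset _ _)
      (fun n hn => by rw [hn.2]; exact y1 i n) s2
    rcases this with rfl | g
    exacts [ha, mem_iUnion.mpr ⟨i, g⟩]
  · obtain ⟨i, hi⟩ := mem_iUnion.mp hη
    obtain ⟨S, s1, s2, s3⟩ := y2 i η (Or.inr hi)
    refine ⟨S, s2, s3.congr' (eventually_inf_principal.mpr (Eventually.of_forall fun n hn => ?_))⟩
    dsimp only
    rw [(Nat.find_eq_iff _).mpr ⟨(s1 hn).2, fun j hj => not_not.mpr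
      (Ab_anti x d (k2.monotone hj) (s1 hn).1)⟩]

end

/-- For every uncountable Polish space and every `Π⁰₄` ideal, `𝓛_X(I)` is the family of closed
sets or the family of `F_σ` sets. -/
theorem result (X : Type) [TopologicalSpace X] [PolishSpace X] [Uncountable X]
    (I : Set (Set ℕ)) (hI : IsIdeal I) (h : IsPi04 I) :
    Fam X I = {Y | IsClosed Y} ∨ Fam X I = {Y | IsFsigma Y} := by
  obtain ⟨U, hU, h⟩ := h
  letI := TopologicalSpace.upgradeIsCompletelyMetrizable X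
  refine main hI hU fun S => ?_
  have : Function.Injective chi := fun S T e => Set.ext fun i => by
    simpa [chi] using congrFun e i
  rw [← this.mem_set_image, h]
  simp

end Pool.Agent.Results.MP_c9b87f_lc.Dichotomy
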